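import Pool.Agent.Helper52.ES.Spec
import Pool.Agent.Helper34.Grid.FD

set_option autoImplicit false

/-! # Local facts on the costs of the drawing (NF) -/

namespace Pool.Agent.Helper76.ES

open Pool.Agent.Helper52.Grid
open Pool.Agent.Helper52.ES
open Pool.Agent.Helper52.ES.Par (lring)
open Pool.Agent.Helper34.Grid (z z_le z_ne mod_Vals)

/-! ### finite tables -/

/-- forced degree inside a cell -/
def fc (κ : Kind) (r j : ℕ) : ℕ :=
  z (hCell κ r j) + (if j = 0 then r % 2 else z (hCell κ r (j - 1))) + z (vCell κ r j) +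
      (if r = 0 then 0 else z (vCell κ (r - 1) j))

/-- forced degree in the top part of a cell -/
def ft (o o' : Sub) (y j : ℕ) : ℕ :=
  z (hTop o o' y j) + (if j = 0 then (if y = 3 then 1 else if y = 0 then 0 else if o = none then 0
    else 1) else z (hTop o o' y (j - 1))) + z (vTop o o' y j) +
      (if y = 0 then 0 else z (vTop o o' (y - 1) j))

theorem fc_le (κ : Kind) (r : Fin 6) (j : Fin 4) : fc κ r j ≤ 2 := by
  revert r j; cases κ <;> decide

theorem fc_one (κ : Kind) (r : Fin 6) (j : Fin 4) : fc κ r j = 1 → (j : ℕ) = 1 ∨ (j : ℕ) = 2 := by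
  revert r j; cases κ <;> decide

theorem fc_h2 (κ : Kind) (r : Fin 6) (j : Fin 4) : hCell κ r j = 2 →
    (j : ℕ) = 1 ∧ fc κ r 1 = 1 ∧ fc κ r 2 = 1 ∧ (r : ℕ) % 2 = 1 := by
  revert r j; cases κ <;> decide

theorem fc_v2 (κ : Kind) (r : Fin 6) (j : Fin 4) : vCell κ r j = 2 →
    ((j : ℕ) = 1 ∨ (j : ℕ) = 2) ∧ fc κ r j = 1 ∧
      (((r : ℕ) < 5 ∧ fc κ (r + 1) j = 1) ∨ ((r : ℕ) = 5 ∧ κ = .cross)) := by
  revert r j; cases κ <;> decide

theorem fc_adh (κ : Kind) (r : Fin 6) : fc κ r 1 = 1 → fc κ r 2 = 1 →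
    hCell κ r 1 = 2 ∨ (r : ℕ) % 2 = 0 := by
  revert r; cases κ <;> decide

theorem fc_adv (κ : Kind) (r : Fin 6) (j : Fin 4) : fc κ r j = 1 →
    ((r : ℕ) = 5 ∨ fc κ (r + 1) j = 1) → vCell κ r j = 2 := by
  revert r j; cases κ <;> decide

theorem fc_zero (κ : Kind) (j : Fin 4) (h : κ = .cross ∨ κ = .dblk)
    (hj : (j : ℕ) = 1 ∨ (j : ℕ) = 2) : fc κ 0 j = 1 := by
  revert j h; cases κ <;> decide

theorem ft_one (o o' : Sub) (y j : ℕ) (hy : y < 4) (hj : j < 4) :
    ft o o' y j = 1 ↔ (y = 2 ∨ y = 3) ∧ (j = 1 ∨ j = 2) ∧ dock o = true := by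
  rcases o with _ | ⟨v, _ | _⟩ <;> rcases o' with _ | o' <;> interval_cases y <;>
    interval_cases j <;> simp [ft, hTop, vTop, dock, z]


/-! ### the costs -/

section

variable {p : Par} {x y k i r j : ℕ}

theorem K0_def : p.K0 = 5 + 4 * p.s.length := rfl

theorem h_lt (hx : x < p.K0) : p.h x y = hC p.s p.M x y := if_pos hx

theorem v_lt (hx : x < p.K0) : p.v x y = vC p.s p.M x y := if_pos hx

theorem h_K0 (y : ℕ) : p.h p.K0 y =
    if y = 3 ∨ (4 ≤ y ∧ (y - 4) % 6 = 3 ∧ (y - 4) / 6 < p.rows) then 0 else 4 := by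
  unfold Par.h
  rw [if_neg (lt_irrefl _)]
  simp

theorem h_gt (hx : p.K0 < x) : p.h x y = 4 := by
  unfold Par.h
  rw [if_neg (by omega), if_neg (by omega)]

theorem v_K0 (y : ℕ) : p.v p.K0 y =
    if 4 ≤ y ∧ (y - 4) / 6 < p.rows ∧ 1 ≤ (y - 4) % 6 ∧ (y - 4) % 6 ≤ 4 then 0 else 4 := by
  unfold Par.v
  rw [if_neg (lt_irrefl _), if_pos rfl]

theorem v_K1 (y : ℕ) : p.v (p.K0 + 1) y =
    if 3 ≤ y ∧ (y - 1) / 6 % 2 = 0 ∧ (y - 1) / 6 ≤ 2 * p.M then 0 else 4 := by
  unfold Par.v
  rw [if_neg (by omega), if_neg (by omega), if_pos rfl]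

theorem v_gt (hx : p.K0 + 1 < x) : p.v x y = 4 := by
  unfold Par.v
  rw [if_neg (by omega), if_neg (by omega), if_neg (by omega)]

theorem vals_h (x y : ℕ) : p.h x y = 0 ∨ p.h x y = 2 ∨ p.h x y = 4 := by
  unfold Par.h
  split_ifs
  · exact (mod_Vals p.s p.M).1 x y
  · simp
  · simp

theorem vals_v (x y : ℕ) : p.v x y = 0 ∨ p.v x y = 2 ∨ p.v x y = 4 := by
  unfold Par.v
  split_ifs
  · exact (mod_Vals p.s p.M).2 x y
  all_goals simp

theorem fd_eq (hx : 0 < x) (hy : 0 < y) :
    p.fd x y = z (p.h x y) + z (p.h (x - 1) y) + z (p.v x y) + z (p.v x (y - 1)) := by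
  unfold Par.fd z
  simp only [hx, hy, true_and]

theorem fd_lt (hx : 0 < x) (hxK : x < p.K0) (hy : 0 < y) : p.fd x y =
    z (hC p.s p.M x y) + z (hC p.s p.M (x - 1) y) + z (vC p.s p.M x y) +
      z (vC p.s p.M x (y - 1)) := by
  rw [fd_eq hx hy, h_lt hxK, h_lt (by omega), v_lt hxK, v_lt hxK]

/-- forced degrees in the cells -/
theorem fd_c (hk : k < p.s.length) (hi : i < p.rows) (hr : r < 6) (hj : j < 4)
    (hx : x = 5 + 4 * k + j) (hy : y = 4 + 6 * i + r) :
    p.fd x y = fc (kind (sg p.s k) i) r j := by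
  have hi' : i < 2 * p.M + 1 := hi
  rw [fd_lt (by omega) (by rw [K0_def]; omega) (by omega), hC_cell hk hi' hr hj hx hy,
    vC_cell hk hi' hr hj hx hy]
  have h1 : z (hC p.s p.M (x - 1) y) =
      if j = 0 then r % 2 else z (hCell (kind (sg p.s k) i) r (j - 1)) := by
    split_ifs with h0
    · exact Helper34.Grid.left_border p.s p.M k i r (x - 1) y hk.le hi' hr (by omega) hy
    · rw [hC_cell (k := k) (j := j - 1) hk hi' hr (by omega) (by omega) hy]
  have h2 : z (vC p.s p.M x (y - 1)) =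
      if r = 0 then 0 else z (vCell (kind (sg p.s k) i) (r - 1) j) := by
    split_ifs with h0
    · apply z_ne
      rcases Nat.eq_zero_or_pos i with hi0 | hi0
      · rw [vC_topC hk (by omega) hj hx]
        unfold vTop
        split_ifs <;> omega
      · rw [vC_cell (i := i - 1) (r := 5) hk (by omega) (by omega) hj hx (by omega)]
        cases kind (sg p.s k) (i - 1) <;> interval_cases j <;> simp [vCell]
    · rw [vC_cell (k := k) (i := i) (r := r - 1) (j := j) hk hi' (by omega) hj hx (by omega)]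
  rw [h1, h2]
  rfl

/-- horizontal costs of the top part over the left border of a cell -/
theorem top_border (hz : 0 < p.s.length → sg p.s 0 = none) (hk : k < p.s.length) (hy : y < 4) :
    z (hC p.s p.M (4 + 4 * k) y) =
      if y = 3 then 1 else if y = 0 then 0 else if sg p.s k = none then 0 else 1 := by
  rcases Nat.eq_zero_or_pos k with hk0 | hk0
  · subst hk0
    rw [hC_topL hy (by omega), hz hk]
    interval_cases y <;> simp [z]
  · rw [hC_topC (k := k - 1) (j := 3) (by omega) hy (by norm_num) (by omega),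
      show k - 1 + 1 = k by omega]
    rcases sg p.s k with _ | o <;> interval_cases y <;> simp [z, hTop]

/-- forced degrees in the top part of the cells -/
theorem fd_t (hz : 0 < p.s.length → sg p.s 0 = none) (hk : k < p.s.length) (hj : j < 4)
    (hy : y < 4) (hx : x = 5 + 4 * k + j) :
    p.fd x y = ft (sg p.s k) (sg p.s (k + 1)) y j := by
  have hxK : x < p.K0 := by rw [K0_def]; omega
  rcases Nat.eq_zero_or_pos y with hy0 | hy0
  · subst hy0
    unfold Par.fd ft
    rw [h_lt hxK, v_lt hxK, h_lt (by omega), hC_y0, hC_y0, vC_y0]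
    simp only [hTop, vTop]
    split_ifs <;> simp_all [z]
  rw [fd_lt (by omega) hxK hy0, hC_topC hk hy hj hx, vC_topC hk hy hj hx,
    vC_topC hk (by omega) hj hx]
  have h1 : z (hC p.s p.M (x - 1) y) = if j = 0 then (if y = 3 then 1 else if y = 0 then 0
      else if sg p.s k = none then 0 else 1) else z (hTop (sg p.s k) (sg p.s (k + 1)) y (j - 1)) := by
    split_ifs with h0
    all_goals try
      have := top_border hz hk hy
      rw [show 4 + 4 * k = x - 1 by omega] at this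
      rw [this]
      simp_all
    rw [hC_topC hk hy (j := j - 1) (by omega) (by omega)]
  rw [h1]
  unfold ft
  simp only [if_neg (show ¬ y = 0 by omega)]

/-! ### boxes -/

theorem h_zero_x (y : ℕ) : p.h 0 y = 4 := by
  rw [h_lt (by rw [K0_def]; omega), hC_zero]

theorem v_zero_x (y : ℕ) : p.v 0 y = 4 := by
  rw [v_lt (by rw [K0_def]; omega), vC_zero]

theorem h_zero_y (x : ℕ) : p.h x 0 = 4 := by
  rcases lt_trichotomy x p.K0 with hx | hx | hx
  · rw [h_lt hx, hC_y0]
  · subst hx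
    rw [h_K0, if_neg (by omega)]
  · exact h_gt hx

theorem v_zero_y (x : ℕ) : p.v x 0 = 4 := by
  rcases lt_trichotomy x p.K0 with hx | hx | hx
  · rw [v_lt hx, vC_y0]
  · subst hx
    rw [v_K0, if_neg (by omega)]
  · rcases Nat.lt_or_ge (p.K0 + 1) x with hx' | hx'
    · exact v_gt hx'
    · rw [show x = p.K0 + 1 by omega, v_K1, if_neg (by omega)]

theorem h_bot (hy : 6 * p.rows + 4 ≤ y) : p.h x y = 4 := by
  have hr : p.rows = 2 * p.M + 1 := rfl
  rcases lt_trichotomy x p.K0 with hx | hx | hx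
  · rw [h_lt hx, hC_bot (i := 2 * p.M + 1) le_rfl (by omega)]
  · subst hx
    rw [h_K0, if_neg (by omega)]
  · exact h_gt hx

theorem v_bot (hy : 6 * p.rows + 3 ≤ y) : p.v x y ≠ 0 := by
  have hr : p.rows = 2 * p.M + 1 := rfl
  rcases lt_trichotomy x p.K0 with hx | hx | hx
  · rw [v_lt hx]
    rcases Nat.lt_or_ge y (6 * p.rows + 4) with hy' | hy'
    · have hi : 2 * p.M < 2 * p.M + 1 := by omega
      rw [K0_def] at hx
      rcases col_cases p.s.length x with hx' | ⟨k, j, hk, hj, hx'⟩ | ⟨j, hx'⟩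
      · rw [vC_left (i := 2 * p.M) (r := 5) hi (by omega) hx' (by omega)]
        interval_cases x <;> simp [vL]
      · rw [vC_cell (i := 2 * p.M) (r := 5) hk hi (by omega) hj hx' (by omega)]
        rcases kind (sg p.s k) (2 * p.M) with _ | _ | _ | _ <;> interval_cases j <;> simp [vCell]
      · omega
    · rw [vC_bot (i := 2 * p.M + 1) le_rfl (by omega)]; omega
  · subst hx
    rw [v_K0, if_neg (by omega)]; omega
  · rcases Nat.lt_or_ge (p.K0 + 1) x with hx' | hx'
    · rw [v_gt hx']; omega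
    · rw [show x = p.K0 + 1 by omega, v_K1, if_neg (by omega)]; omega

theorem boxh (x y : ℕ) (h : p.h x y = 0) : 1 ≤ x ∧ x ≤ p.K0 ∧ 1 ≤ y ∧ y < 6 * p.rows + 4 := by
  refine ⟨?_, ?_, ?_, ?_⟩
  · by_contra hc
    rw [show x = 0 by omega, h_zero_x] at h
    omega
  · by_contra hc
    rw [h_gt (by omega)] at h
    omega
  · by_contra hc
    rw [show y = 0 by omega, h_zero_y] at h
    omega
  · by_contra hc
    rw [h_bot (by omega)] at h
    omega

theorem boxv (x y : ℕ) (h : p.v x y = 0) :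
    1 ≤ x ∧ x ≤ p.K0 + 1 ∧ 1 ≤ y ∧ y < 6 * p.rows + 3 := by
  refine ⟨?_, ?_, ?_, ?_⟩
  · by_contra hc
    rw [show x = 0 by omega, v_zero_x] at h
    omega
  · by_contra hc
    rw [v_gt (by omega)] at h
    omega
  · by_contra hc
    rw [show y = 0 by omega, v_zero_y] at h
    omega
  · by_contra hc
    exact v_bot (by omega) h

theorem box (x y : ℕ) (h : p.fd x y ≠ 0) :
    1 ≤ x ∧ x ≤ p.K0 + 1 ∧ 1 ≤ y ∧ y < 6 * p.rows + 4 := by
  by_cases h1 : p.h x y = 0
  · have := boxh x y h1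
    omega
  by_cases h2 : 0 < x ∧ p.h (x - 1) y = 0
  · have := boxh (x - 1) y h2.2
    omega
  by_cases h3 : p.v x y = 0
  · have := boxv x y h3
    omega
  by_cases h4 : 0 < y ∧ p.v x (y - 1) = 0
  · have := boxv x (y - 1) h4.2
    omega
  exact absurd (by unfold Par.fd; rw [if_neg h1, if_neg h2, if_neg h3, if_neg h4]) h

/-! ### the left end -/

/-- forced degrees at the left end -/
theorem fd_l (hi : i < p.rows) (hr : r < 6) (hx : x < 5) (hx1 : 1 ≤ x) (hy : y = 4 + 6 * i + r) :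
    p.fd x y = z (hL p.M i r x) + z (hL p.M i r (x - 1)) + z (vL p.M i r x) +
      z (if r = 0 then (if i = 0 then (if x = 1 then 0 else 4) else vL p.M (i - 1) 5 x)
        else vL p.M i (r - 1) x) := by
  have hi' : i < 2 * p.M + 1 := hi
  rw [fd_lt hx1 (by rw [K0_def]; omega) (by omega), hC_left hi' hr hx hy,
    hC_left hi' hr (by omega) hy, vC_left hi' hr hx hy]
  congr 2
  split_ifs with h1 h2 h3
  · rw [vC_topL (by omega) hx, if_pos ⟨by omega, h3⟩]
  · rw [vC_topL (by omega) hx, if_neg (by omega)]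
  · exact vC_left (by omega) (by omega) hx (by omega)
  · exact vC_left hi' (by omega) hx (by omega)

theorem l_one (hi : i < p.rows) (hr : r < 6) (hx : x < 5) (hy : y = 4 + 6 * i + r) :
    p.fd x y = 1 ↔ (x = 3 ∨ x = 4) ∧ (r = 3 ∨ r = 4) := by
  rcases Nat.eq_zero_or_pos x with hx0 | hx1
  · subst hx0
    have : p.fd 0 y = 0 := by
      by_contra hc
      have := box 0 y hc
      omega
    rw [this]
    omega
  rw [fd_l hi hr hx hx1 hy]
  have hi' : i < 2 * p.M + 1 := hi
  clear hy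
  generalize p.M = m at *
  by_cases c0 : i = 0
  · subst c0
    by_cases c1 : m = 0
    · subst c1
      interval_cases r <;> interval_cases x <;> simp [z, hL, vL]
    · have c2 : 0 < m := by omega
      have c3 : ¬ 0 = 2 * m := by omega
      interval_cases r <;> interval_cases x <;> simp [z, hL, vL, c2, c3]
  have c0' : 0 < i := by omega
  have c4 : i - 1 < 2 * m := by omega
  by_cases c1 : i = 2 * m
  · have c3 : i % 2 = 0 := by omega
    have c5 : (i - 1) % 2 = 1 := by omega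
    have c7 : ¬ m = 0 := by omega
    subst c1
    interval_cases r <;> interval_cases x <;> simp [z, hL, vL, c4, c5, c7]
  have c2 : i < 2 * m := by omega
  by_cases c3 : i % 2 = 0
  · have c5 : (i - 1) % 2 = 1 := by omega
    interval_cases r <;> interval_cases x <;> simp [z, hL, vL, c0, c1, c2, c3, c4, c5]
  · have c5 : (i - 1) % 2 = 0 := by omega
    interval_cases r <;> interval_cases x <;> simp [z, hL, vL, c0, c1, c2, c3, c4, c5]

theorem l_le (hi : i < p.rows) (hr : r < 6) (hx : x < 5) (hy : y = 4 + 6 * i + r) :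
    p.fd x y ≤ 2 := by
  rcases Nat.eq_zero_or_pos x with hx0 | hx1
  · subst hx0
    have : p.fd 0 y = 0 := by
      by_contra hc
      have := box 0 y hc
      omega
    rw [this]
    omega
  have := Helper34.Grid.fd_left p.s p.M i r (x - 1) (y - 1) hi hr (by omega) (by omega)
  rw [fd_lt hx1 (by rw [K0_def]; omega) (by omega)]
  rw [show x - 1 + 1 = x by omega, show y - 1 + 1 = y by omega] at this
  exact this

/-- forced degrees in the top left corner -/
theorem fd_tl (hx : x < 5) (hy : y < 4) : p.fd x y = 0 ∨ p.fd x y = 2 := by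
  rcases Nat.eq_zero_or_pos x with hx0 | hx1
  · subst hx0
    left
    by_contra hc
    have := box 0 y hc
    omega
  rcases Nat.eq_zero_or_pos y with hy0 | hy1
  · subst hy0
    left
    by_contra hc
    have := box x 0 hc
    omega
  rw [fd_lt hx1 (by rw [K0_def]; omega) (by omega), hC_topL hy hx, hC_topL hy (by omega),
    vC_topL hy hx, vC_topL (by omega) hx]
  interval_cases y <;> interval_cases x <;> simp [z]

/-! ### the right end -/

theorem left_K0 (hi : i < p.rows) (hr : r < 6) (hy : y = 4 + 6 * i + r) :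
    z (p.h (p.K0 - 1) y) = r % 2 := by
  rw [h_lt (by rw [K0_def]; omega)]
  exact Helper34.Grid.left_border p.s p.M p.s.length i r _ y le_rfl hi hr
    (by rw [K0_def]; omega) hy

theorem left_K0_top (hy : y < 4) :
    z (p.h (p.K0 - 1) y) = if y = 3 then 1 else 0 := by
  rw [h_lt (by rw [K0_def]; omega), show p.K0 - 1 = 4 + 4 * p.s.length by rw [K0_def]; omega]
  rcases Nat.eq_zero_or_pos p.s.length with hk0 | hk0
  · rw [hk0, hC_topL hy (by omega)]
    interval_cases y <;> simp [z]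
  · rw [hC_topC (k := p.s.length - 1) (j := 3) (by omega) hy (by norm_num) (by omega),
      show p.s.length - 1 + 1 = p.s.length by omega, sg_of_le le_rfl]
    interval_cases y <;> simp [z, hTop]

theorem fd_K0_row (hi : i < p.rows) (hr : r < 6) (hy : y = 4 + 6 * i + r) :
    p.fd p.K0 y = if r = 0 then 0 else if r = 3 then 4 else 2 := by
  rw [fd_eq (by rw [K0_def]; omega) (by omega), left_K0 hi hr hy, h_K0, v_K0, v_K0]
  have e1 : (y - 4) % 6 = r := by omega
  have e2 : (y - 4) / 6 = i := by omega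
  have e3 : y ≠ 3 := by omega
  have e4 : 4 ≤ y := by omega
  rw [e1, e2]
  rcases Nat.eq_zero_or_pos r with h0 | h0
  · have e5 : ¬ (4 ≤ y - 1 ∧ (y - 1 - 4) / 6 < p.rows ∧ 1 ≤ (y - 1 - 4) % 6 ∧
        (y - 1 - 4) % 6 ≤ 4) := by omega
    rw [if_neg e5]
    subst h0
    simp [z, e3]
  · have e5 : (y - 1 - 4) % 6 = r - 1 := by omega
    have e6 : (y - 1 - 4) / 6 = i := by omega
    have e7 : 1 ≤ r - 1 → 4 ≤ y - 1 := by omega
    rw [e5, e6]
    interval_cases r <;> simp [z, e3, e4, hi]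
    all_goals rw [if_pos (e7 (by norm_num))]

theorem fd_K0_top (hy : y < 4) :
    p.fd p.K0 y = if y = 3 then 2 else 0 := by
  rcases Nat.eq_zero_or_pos y with hy0 | hy1
  · subst hy0
    rw [if_neg (by omega)]
    by_contra hc
    have := box _ _ hc
    omega
  rw [fd_eq (by rw [K0_def]; omega) (by omega), left_K0_top hy, h_K0, v_K0, v_K0,
    if_neg (show ¬ (4 ≤ y ∧ (y - 4) / 6 < p.rows ∧ 1 ≤ (y - 4) % 6 ∧ (y - 4) % 6 ≤ 4) by omega),
    if_neg (show ¬ (4 ≤ y - 1 ∧ (y - 1 - 4) / 6 < p.rows ∧ 1 ≤ (y - 1 - 4) % 6 ∧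
      (y - 1 - 4) % 6 ≤ 4) by omega)]
  interval_cases y <;> simp [z]

theorem fd_K1 (y : ℕ) : p.fd (p.K0 + 1) y = 0 ∨ p.fd (p.K0 + 1) y = 2 := by
  have hr : p.rows = 2 * p.M + 1 := rfl
  rcases Nat.eq_zero_or_pos y with hy0 | hy1
  · subst hy0
    left
    by_contra hc
    have := box _ _ hc
    omega
  rw [fd_eq (by omega) (by omega), h_gt (by omega), Nat.add_sub_cancel, h_K0, v_K1, v_K1]
  generalize ha : (if y = 3 ∨ (4 ≤ y ∧ (y - 4) % 6 = 3 ∧ (y - 4) / 6 < p.rows) then 0 else 4) = a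
  generalize hb : (if 3 ≤ y ∧ (y - 1) / 6 % 2 = 0 ∧ (y - 1) / 6 ≤ 2 * p.M then 0 else 4) = b
  generalize hc : (if 3 ≤ y - 1 ∧ (y - 1 - 1) / 6 % 2 = 0 ∧ (y - 1 - 1) / 6 ≤ 2 * p.M
    then 0 else 4) = c
  split_ifs at ha hb hc <;> subst ha hb hc <;> simp [z] <;> omega

/-- the row of a line inside the box -/
theorem row_of (hy4 : 4 ≤ y) (hy : y < 6 * p.rows + 4) :
    ∃ i r, i < p.rows ∧ r < 6 ∧ y = 4 + 6 * i + r :=
  ⟨(y - 4) / 6, (y - 4) % 6, by omega, by omega, by omega⟩

theorem hub_iff : p.hub x y = true ↔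
    x = p.K0 ∧ 4 ≤ y ∧ (y - 4) % 6 = 3 ∧ (y - 4) / 6 < p.rows := by
  unfold Par.hub
  exact decide_eq_true_iff

theorem lring_iff : lring x y = true ↔
    (x = 3 ∨ x = 4) ∧ 4 ≤ y ∧ ((y - 4) % 6 = 3 ∨ (y - 4) % 6 = 4) := by
  unfold lring
  exact decide_eq_true_iff

theorem lring_false (hx : 4 < x) : lring x y = false := by
  unfold lring
  exact decide_eq_false (by omega)

theorem one_lt (x y : ℕ) (h : p.fd x y = 1) : x < p.K0 := by
  have hb := box (p := p) x y (by omega)
  by_contra hc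
  rcases Nat.eq_or_lt_of_le (not_lt.mp hc) with hx | hx
  · subst hx
    rcases Nat.lt_or_ge y 4 with hy | hy
    · rw [fd_K0_top hy] at h
      split_ifs at h
      omega
    · obtain ⟨i, r, hi, hr, hy'⟩ := row_of hy hb.2.2.2
      rw [fd_K0_row hi hr hy'] at h
      split_ifs at h <;> omega
  · have hx' : x = p.K0 + 1 := by omega
    subst hx'
    rcases fd_K1 (p := p) y with h' | h' <;> omega

/-- the sites with one forced edge -/
theorem one_cases (hz : 0 < p.s.length → sg p.s 0 = none) (h : p.fd x y = 1) :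
    (∃ i r, i < p.rows ∧ (x = 3 ∨ x = 4) ∧ (r = 3 ∨ r = 4) ∧ y = 4 + 6 * i + r) ∨
    (∃ k j, k < p.s.length ∧ (j = 1 ∨ j = 2) ∧ x = 5 + 4 * k + j ∧
      ((dock (sg p.s k) = true ∧ (y = 2 ∨ y = 3)) ∨
      ∃ i r, i < p.rows ∧ r < 6 ∧ y = 4 + 6 * i + r ∧ fc (kind (sg p.s k) i) r j = 1)) := by
  have hb := box (p := p) x y (by omega)
  have hK := one_lt x y h
  rw [K0_def] at hK
  rcases Nat.lt_or_ge y 4 with hy | hy
  · rcases col_cases p.s.length x with hx | ⟨k, j, hk, hj, hx⟩ | ⟨j, hx⟩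
    · rcases fd_tl (p := p) hx hy with h' | h' <;> omega
    · rw [fd_t hz hk hj hy hx, ft_one _ _ _ _ hy hj] at h
      exact Or.inr ⟨k, j, hk, h.2.1, hx, Or.inl ⟨h.2.2, h.1⟩⟩
    · omega
  · obtain ⟨i, r, hi, hr, hy'⟩ := row_of hy hb.2.2.2
    rcases col_cases p.s.length x with hx | ⟨k, j, hk, hj, hx⟩ | ⟨j, hx⟩
    · rw [l_one hi hr hx hy'] at h
      exact Or.inl ⟨i, r, hi, h.1, h.2, hy'⟩
    · have hf := fd_c hk hi hr hj hx hy'
      rw [hf] at h
      exact Or.inr ⟨k, j, hk, fc_one _ ⟨r, hr⟩ ⟨j, hj⟩ h, hx, Or.inr ⟨i, r, hi, hr, hy', h⟩⟩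
    · omega

theorem two (x y : ℕ) (h : p.hub x y = false) :
    p.fd x y ≤ 2 := by
  by_cases h0 : p.fd x y = 0
  · omega
  have hb := box x y h0
  rcases lt_trichotomy x p.K0 with hx | hx | hx
  · rw [K0_def] at hx
    rcases Nat.lt_or_ge y 4 with hy | hy
    · have := Helper34.Grid.fd_top p.s p.M (x - 1) (y - 1) (by omega)
      rw [fd_lt (by omega) (by rw [K0_def]; omega) (by omega)]
      rw [show x - 1 + 1 = x by omega, show y - 1 + 1 = y by omega] at this
      exact this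
    · obtain ⟨i, r, hi, hr, hy'⟩ := row_of hy hb.2.2.2
      rcases col_cases p.s.length x with hx' | ⟨k, j, hk, hj, hx'⟩ | ⟨j, hx'⟩
      · exact l_le hi hr hx' hy'
      · rw [fd_c hk hi hr hj hx' hy']
        exact fc_le _ ⟨r, hr⟩ ⟨j, hj⟩
      · omega
  · subst hx
    rcases Nat.lt_or_ge y 4 with hy | hy
    · rw [fd_K0_top hy]
      split_ifs <;> omega
    · obtain ⟨i, r, hi, hr, hy'⟩ := row_of hy hb.2.2.2
      rw [fd_K0_row hi hr hy']
      have h3 : r ≠ 3 := by
        rintro rfl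
        rw [hub_iff.2 ⟨rfl, by omega, by omega, by omega⟩] at h
        exact absurd h (by simp)
      rw [if_neg h3]
      split_ifs <;> omega
  · have hx' : x = p.K0 + 1 := by omega
    subst hx'
    rcases fd_K1 (p := p) y with h' | h' <;> omega

theorem hubE (x y : ℕ) (h : p.hub x y = true) :
    p.h x y = 0 ∧ p.h (x - 1) y = 0 ∧ p.v x y = 0 ∧ p.v x (y - 1) = 0 := by
  obtain ⟨rfl, h4, h3, hr⟩ := hub_iff.1 h
  refine ⟨?_, ?_, ?_, ?_⟩
  · rw [h_K0, if_pos (Or.inr ⟨h4, h3, hr⟩)]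
  · have := left_K0 (p := p) (i := (y - 4) / 6) (r := 3) (y := y) hr (by omega) (by omega)
    unfold z at this
    split_ifs at this with h'
    exact h'
  · rw [v_K0, if_pos ⟨h4, hr, by omega, by omega⟩]
  · rw [v_K0, if_pos ⟨by omega, by omega, by omega, by omega⟩]

/-- the optional horizontal edges -/
theorem h2_cases (h : p.h x y = 2) :
    (∃ i r, i < p.rows ∧ x = 3 ∧ (r = 3 ∨ r = 4) ∧ y = 4 + 6 * i + r) ∨
    (∃ k, k < p.s.length ∧ x = 6 + 4 * k ∧ (y = 2 ∨ y = 3) ∧ dock (sg p.s k) = true) ∨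
    (∃ k i r, k < p.s.length ∧ i < p.rows ∧ r < 6 ∧ x = 6 + 4 * k ∧ y = 4 + 6 * i + r ∧
      hCell (kind (sg p.s k) i) r 1 = 2) := by
  rcases Nat.lt_or_ge x p.K0 with hx | hx
  · rw [h_lt hx] at h
    rw [K0_def] at hx
    rcases Nat.lt_or_ge y 4 with hy | hy
    · rcases col_cases p.s.length x with hx' | ⟨k, j, hk, hj, hx'⟩ | ⟨j, hx'⟩
      · rw [hC_topL hy hx'] at h
        split_ifs at h
        omega
      · rw [hC_topC hk hy hj hx'] at h
        unfold hTop at h
        split_ifs at h with h1 h2 h3 h4 h5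
        all_goals try (exfalso; omega)
        · exact Or.inr (Or.inl ⟨k, hk, by omega, by omega, h2.2⟩)
        · exact Or.inr (Or.inl ⟨k, hk, by omega, by omega, h5.2.2⟩)
      · omega
    · rcases Nat.lt_or_ge y (6 * p.rows + 4) with hyb | hyb
      · obtain ⟨i, r, hi, hr, hy'⟩ := row_of hy hyb
        rcases col_cases p.s.length x with hx' | ⟨k, j, hk, hj, hx'⟩ | ⟨j, hx'⟩
        · rw [hC_left hi hr hx' hy'] at h
          left
          refine ⟨i, r, hi, ?_⟩
          unfold hL at h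
          split at h
          all_goals first | omega | (split_ifs at h <;> omega)
        · rw [hC_cell hk hi hr hj hx' hy'] at h
          have hj1 := (fc_h2 _ ⟨r, hr⟩ ⟨j, hj⟩ h).1
          simp only at hj1
          subst hj1
          exact Or.inr (Or.inr ⟨k, i, r, hk, hi, hr, by omega, hy', h⟩)
        · omega
      · rw [hC_bot (i := 2 * p.M + 1) le_rfl
          (by have hr : p.rows = 2 * p.M + 1 := rfl
              omega)] at h
        omega
  · exfalso
    rcases Nat.eq_or_lt_of_le hx with hx | hx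
    · subst hx
      rw [h_K0] at h
      split_ifs at h
      omega
    · rw [h_gt hx] at h
      omega

/-- the optional vertical edges -/
theorem v2_cases (h : p.v x y = 2) :
    (∃ i, i < p.rows ∧ (x = 3 ∨ x = 4) ∧ y = 4 + 6 * i + 3) ∨
    (∃ k j, k < p.s.length ∧ (j = 1 ∨ j = 2) ∧ x = 5 + 4 * k + j ∧ (y = 2 ∨ y = 3) ∧
      dock (sg p.s k) = true) ∨
    (∃ k j i r, k < p.s.length ∧ (j = 1 ∨ j = 2) ∧ i < p.rows ∧ r < 6 ∧ x = 5 + 4 * k + j ∧
      y = 4 + 6 * i + r ∧ vCell (kind (sg p.s k) i) r j = 2) := by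
  rcases Nat.lt_or_ge x p.K0 with hx | hx
  · rw [v_lt hx] at h
    rw [K0_def] at hx
    rcases Nat.lt_or_ge y 4 with hy | hy
    · rcases col_cases p.s.length x with hx' | ⟨k, j, hk, hj, hx'⟩ | ⟨j, hx'⟩
      · rw [vC_topL hy hx'] at h
        split_ifs at h
        omega
      · rw [vC_topC hk hy hj hx'] at h
        unfold vTop at h
        split_ifs at h with h1 h2 h3 h4 h5
        all_goals try (exfalso; omega)
        exact Or.inr (Or.inl ⟨k, j, hk, h5.1, hx', by omega, h5.2⟩)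
      · omega
    · rcases Nat.lt_or_ge y (6 * p.rows + 4) with hyb | hyb
      · obtain ⟨i, r, hi, hr, hy'⟩ := row_of hy hyb
        rcases col_cases p.s.length x with hx' | ⟨k, j, hk, hj, hx'⟩ | ⟨j, hx'⟩
        · rw [vC_left hi hr hx' hy'] at h
          left
          refine ⟨i, hi, ?_⟩
          unfold vL at h
          split at h
          all_goals first
            | omega
            | (split_ifs at h <;> omega)
            | (split at h <;> omega)
        · rw [vC_cell hk hi hr hj hx' hy'] at h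
          have hj1 := (fc_v2 _ ⟨r, hr⟩ ⟨j, hj⟩ h).1
          exact Or.inr (Or.inr ⟨k, j, i, r, hk, hj1, hi, hr, hx', hy', h⟩)
        · omega
      · rw [vC_bot (i := 2 * p.M + 1) le_rfl
          (by have hr : p.rows = 2 * p.M + 1 := rfl
              omega)] at h
        omega
  · exfalso
    rcases Nat.eq_or_lt_of_le hx with hx | hx
    · subst hx
      rw [v_K0] at h
      split_ifs at h
      omega
    · rcases Nat.lt_or_ge (p.K0 + 1) x with hx' | hx'
      · rw [v_gt hx'] at h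
        omega
      · rw [show x = p.K0 + 1 by omega, v_K1] at h
        split_ifs at h
        omega

/-- one forced edge at docked sites of the top -/
theorem one_top (hz : 0 < p.s.length → sg p.s 0 = none) (hk : k < p.s.length) (hj : j = 1 ∨ j = 2)
    (hx : x = 5 + 4 * k + j) (hy : y = 2 ∨ y = 3) (hd : dock (sg p.s k) = true) :
    p.fd x y = 1 := by
  rw [fd_t hz hk (by omega) (by omega) hx, ft_one _ _ _ _ (by omega) (by omega)]
  exact ⟨hy, hj, hd⟩

theorem oh (hz : 0 < p.s.length → sg p.s 0 = none) (x y : ℕ) (h : p.h x y = 2) :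
    3 ≤ x ∧ x + 1 < p.K0 ∧ 2 ≤ y ∧ p.fd x y = 1 ∧ p.fd (x + 1) y = 1 := by
  rcases h2_cases h with ⟨i, r, hi, hx, hr, hy⟩ | ⟨k, hk, hx, hy, hd⟩ |
    ⟨k, i, r, hk, hi, hr, hx, hy, h2⟩
  · refine ⟨by omega, by rw [K0_def]; omega, by omega, ?_, ?_⟩
    · rw [l_one hi (by omega) (by omega) hy]; omega
    · rw [l_one hi (by omega) (by omega) hy]; omega
  · refine ⟨by omega, by rw [K0_def]; omega, by omega, ?_, ?_⟩
    · exact one_top (j := 1) hz hk (by omega) (by omega) hy hd
    · exact one_top (j := 2) hz hk (by omega) (by omega) hy hd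
  · obtain ⟨-, h1, h1', -⟩ := fc_h2 _ ⟨r, hr⟩ 1 h2
    refine ⟨by omega, by rw [K0_def]; omega, by omega, ?_, ?_⟩
    · rw [fd_c (j := 1) hk hi hr (by omega) (by omega) hy]
      exact h1
    · rw [fd_c (j := 2) hk hi hr (by omega) (by omega) hy]
      exact h1'

theorem ov (hz : 0 < p.s.length → sg p.s 0 = none)
    (hs : ∀ k i d, sg p.s k = some (i, d) → i < p.rows) (x y : ℕ) (h : p.v x y = 2) :
    3 ≤ x ∧ x < p.K0 ∧ 2 ≤ y ∧ p.fd x y = 1 ∧ p.fd x (y + 1) = 1 := by
  have hrows : 0 < p.rows := by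
    have hr : p.rows = 2 * p.M + 1 := rfl
    omega
  rcases v2_cases h with ⟨i, hi, hx, hy⟩ | ⟨k, j, hk, hj, hx, hy, hd⟩ |
    ⟨k, j, i, r, hk, hj, hi, hr, hx, hy, h2⟩
  · refine ⟨by omega, by rw [K0_def]; omega, by omega, ?_, ?_⟩
    · rw [l_one hi (r := 3) (by omega) (by omega) hy]; omega
    · rw [l_one hi (r := 4) (by omega) (by omega) (by omega)]; omega
  · refine ⟨by omega, by rw [K0_def]; omega, by omega, one_top hz hk hj hx hy hd, ?_⟩
    rcases hy with hy | hy
    · exact one_top hz hk hj hx (by omega) hd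
    · rw [fd_c (j := j) (i := 0) (r := 0) hk hrows (by omega) (by omega) hx (by omega)]
      exact fc_zero _ ⟨j, by omega⟩ (dock_iff.1 hd) hj
  · obtain ⟨-, h1, h3⟩ := fc_v2 _ ⟨r, hr⟩ ⟨j, by omega⟩ h2
    simp only at h1 h3
    refine ⟨by omega, by rw [K0_def]; omega, by omega, ?_, ?_⟩
    · rw [fd_c (j := j) hk hi hr (by omega) hx hy]
      exact h1
    · rcases h3 with ⟨h3, h4⟩ | ⟨h3, h4⟩
      · rw [fd_c (j := j) (r := r + 1) hk hi (by omega) (by omega) hx (by omega)]
        exact h4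
      · obtain ⟨w, hw, hiw⟩ := kind_eq_cross h4
        have hwr := hs _ _ _ hw
        rw [fd_c (j := j) (i := i + 1) (r := 0) hk (by omega) (by omega) (by omega) hx (by omega)]
        exact fc_zero _ ⟨j, by omega⟩ (kind_succ_of_cross h4) hj

theorem ohr (x y : ℕ) (h : p.h x y = 2) :
    (x = 3 ∧ lring x y = true ∧ lring (x + 1) y = true) ∨
    (4 < x ∧ lring x y = false ∧ lring (x + 1) y = false ∧ (y = 2 ∨ y % 2 = 1)) := by
  rcases h2_cases h with ⟨i, r, hi, hx, hr, hy⟩ | ⟨k, hk, hx, hy, hd⟩ |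
    ⟨k, i, r, hk, hi, hr, hx, hy, h2⟩
  · left
    rw [lring_iff, lring_iff]
    omega
  · exact Or.inr ⟨by omega, lring_false (by omega), lring_false (by omega), by omega⟩
  · obtain ⟨-, -, -, h1⟩ := fc_h2 _ ⟨r, hr⟩ 1 h2
    simp only at h1
    exact Or.inr ⟨by omega, lring_false (by omega), lring_false (by omega), by omega⟩

theorem ovr (x y : ℕ) (h : p.v x y = 2) :
    (x ≤ 4 ∧ lring x y = true ∧ lring x (y + 1) = true) ∨
    (4 < x ∧ lring x y = false ∧ lring x (y + 1) = false) := by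
  rcases v2_cases h with ⟨i, hi, hx, hy⟩ | ⟨k, j, hk, hj, hx, hy, hd⟩ |
    ⟨k, j, i, r, hk, hj, hi, hr, hx, hy, h2⟩
  · left
    rw [lring_iff, lring_iff]
    omega
  · exact Or.inr ⟨by omega, lring_false (by omega), lring_false (by omega)⟩
  · exact Or.inr ⟨by omega, lring_false (by omega), lring_false (by omega)⟩

theorem adh (hz : 0 < p.s.length → sg p.s 0 = none) (x y : ℕ) (h : p.fd x y = 1)
    (h' : p.fd (x + 1) y = 1) : p.h x y = 2 ∨
    (4 ≤ y ∧ y % 2 = 0 ∧ lring x y = false ∧ lring (x + 1) y = false) := by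
  rcases one_cases hz h with ⟨i, r, hi, hx, hr, hy⟩ | ⟨k, j, hk, hj, hx, hc⟩
  · left
    have hx3 : x = 3 := by
      rcases one_cases hz h' with ⟨i', r', hi', hx', hr', hy'⟩ | ⟨k', j', hk', hj', hx', -⟩ <;>
        omega
    subst hx3
    rw [h_lt (by rw [K0_def]; omega), hC_left hi (by omega) (by omega) hy]
    rcases hr with rfl | rfl <;> rfl
  · have hj1 : j = 1 := by
      clear hc
      rcases one_cases hz h' with ⟨i', r', hi', hx', hr', hy'⟩ | ⟨k', j', hk', hj', hx', -⟩ <;>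
        omega
    subst hj1
    have hxK : x < p.K0 := by rw [K0_def]; omega
    rcases hc with ⟨hd, hy⟩ | ⟨i, r, hi, hr, hy, h1⟩
    · left
      rw [h_lt hxK, hC_topC hk (by omega) (by omega) hx]
      unfold hTop
      rcases hy with rfl | rfl <;> simp [hd]
    · rw [fd_c (j := 2) hk hi hr (by omega) (by omega) hy] at h'
      rcases fc_adh _ ⟨r, hr⟩ h1 h' with h2 | h2
      · left
        rw [h_lt hxK, hC_cell hk hi hr (by omega) hx hy]
        exact h2
      · simp only at h2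
        exact Or.inr ⟨by omega, by omega, lring_false (by omega), lring_false (by omega)⟩

theorem adv (hz : 0 < p.s.length → sg p.s 0 = none) (x y : ℕ) (h : p.fd x y = 1)
    (h' : p.fd x (y + 1) = 1) : p.v x y = 2 := by
  rcases one_cases hz h with ⟨i, r, hi, hx, hr, hy⟩ | ⟨k, j, hk, hj, hx, hc⟩
  · have hr3 : r = 3 := by
      rcases one_cases hz h' with ⟨i', r', hi', hx', hr', hy'⟩ | ⟨k', j', hk', hj', hx', -⟩ <;>
        omega
    subst hr3
    rw [v_lt (by rw [K0_def]; omega), vC_left hi (by omega) (by omega) hy]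
    rcases hx with rfl | rfl <;> rfl
  · have hxK : x < p.K0 := by rw [K0_def]; omega
    rcases hc with ⟨hd, hy⟩ | ⟨i, r, hi, hr, hy, h1⟩
    · rw [v_lt hxK, vC_topC hk (by omega) (by omega) hx]
      unfold vTop
      rcases hy with rfl | rfl <;> simp [hd, hj]
    · rw [v_lt hxK, vC_cell hk hi hr (by omega) hx hy]
      refine fc_adv _ ⟨r, hr⟩ ⟨j, by omega⟩ h1 ?_
      rcases Nat.lt_or_ge r 5 with hr5 | hr5
      · right
        rw [fd_c (j := j) (r := r + 1) hk hi (by omega) (by omega) hx (by omega)] at h'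
        exact h'
      · left
        simp only
        omega

theorem k0h (y : ℕ) : p.h p.K0 y = 0 ↔ (y = 3 ∨ ∃ i < p.rows, y = 7 + 6 * i) := by
  rw [h_K0]
  constructor
  · intro h
    split_ifs at h with h1
    rcases h1 with h1 | h1
    · exact Or.inl h1
    · exact Or.inr ⟨(y - 4) / 6, h1.2.2, by omega⟩
  · rintro (h | ⟨i, hi, h⟩)
    · rw [if_pos (Or.inl h)]
    · rw [if_pos (Or.inr ⟨by omega, by omega, by omega⟩)]

theorem k0v (y : ℕ) : p.v p.K0 y = 0 ↔ ∃ i < p.rows, y = 5 + 6 * i ∨ y = 6 + 6 * i ∨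
    y = 7 + 6 * i ∨ y = 8 + 6 * i := by
  rw [v_K0]
  constructor
  · intro h
    split_ifs at h with h1
    exact ⟨(y - 4) / 6, h1.2.1, by omega⟩
  · rintro ⟨i, hi, h⟩
    rw [if_pos ⟨by omega, by omega, by omega, by omega⟩]

theorem k0l (y : ℕ) : p.h (p.K0 - 1) y = 0 ↔ (y = 3 ∨ ∃ i < p.rows, y = 5 + 6 * i ∨
    y = 7 + 6 * i ∨ y = 9 + 6 * i) := by
  have hzz : p.h (p.K0 - 1) y = 0 ↔ z (p.h (p.K0 - 1) y) = 1 := by
    unfold z
    split_ifs with h
    · simp [h]
    · simp [h]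
  rw [hzz]
  rcases Nat.lt_or_ge y 4 with hy | hy
  · rw [left_K0_top hy]
    constructor
    · intro h
      split_ifs at h with h1
      exact Or.inl h1
    · rintro (h | ⟨i, hi, h⟩)
      · rw [if_pos h]
      · omega
  · rcases Nat.lt_or_ge y (6 * p.rows + 4) with hyb | hyb
    · obtain ⟨i, r, hi, hr, hy'⟩ := row_of hy hyb
      rw [left_K0 hi hr hy']
      constructor
      · intro h
        exact Or.inr ⟨i, hi, by omega⟩
      · rintro (h | ⟨i', hi', h⟩) <;> omega
    · rw [h_bot hyb]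
      constructor
      · intro h
        simp [z] at h
      · rintro (h | ⟨i', hi', h⟩) <;> omega

theorem hubI (x y : ℕ) : p.hub x y = true ↔ x = p.K0 ∧ ∃ i < p.rows, y = 7 + 6 * i := by
  rw [hub_iff]
  constructor
  · rintro ⟨h1, h2, h3, h4⟩
    exact ⟨h1, (y - 4) / 6, h4, by omega⟩
  · rintro ⟨h1, i, hi, h2⟩
    exact ⟨h1, by omega, by omega, by omega⟩

end

/-- (NF) -/
theorem nf : specNF := by
  intro p W hp
  exact
    { h3 := vals_h
      v3 := vals_v
      boxh := boxh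
      boxv := boxv
      box := box
      hubE := hubE
      two := two
      one := one_lt
      oh := oh hp.zero
      ov := ov hp.zero hp.sub
      ohr := ohr
      ovr := ovr
      adh := adh hp.zero
      adv := adv hp.zero
      k0h := k0h
      k0v := k0v
      k0l := k0l
      hubI := hubI }

end Pool.Agent.Helper76.ES
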